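import Pool.Agent.K6.H88.TW.Main

/-!
# All small quadratic twists of a positive proportion of all elliptic curves over `ℚ` have minimal rank

Theorem. Let `N` be any number. For a positive proportion of all elliptic curves `E / ℚ`, ordered by
height, ALL quadratic twists `E^d` with `1 ≤ |d| ≤ N` have rank at most one, and those with `d` not of
the form `4 ^ k (4 l + 3)` have rank zero, at the same time. The same holds for all `d`
whose prime factors `p` are at most `N` or have the property that `x ^ 3 + A x + B` has no zero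
modulo `p` (the number of points of `E` modulo `p` is odd).

(Rank zero cannot be expected for all `d`: the local condition at `2` of the twist changes if `d` is of
the form `4 ^ k (4 l + 3)`, so that by the theory of 2-Selmer groups the parity of the rank should
change.)

The proof. The curves are `y ^ 2 = x ^ 3 + a D ^ 2 x + b D ^ 3` with `a > 0`, `a = b = 3` modulo `4`,
squarefree `4 a ^ 3 + 27 b ^ 2`, no zero of `f = x ^ 3 + a x + b` modulo the primes `≤ N`, and
`D` a product of primes, `1` modulo `8`, of a large finite set `S` modulo which `f = x (x ^ 2 + s)` with an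
irreducible second factor. The theorems of the projects PQ and PV (helper922, in the starting files)
give for a positive proportion of these `(a, b)` a `D` such that every element of `ℚ(θ)`, `f(θ) = 0`, of
square norm, with even valuations outside of `D`, the ramified condition at the primes dividing `D` and
a unit modulo `4` in the class of `1` or of `1 + 2 θ` at the prime `2`, is a square. We
compute the local conditions of all twists. At a prime factor `p` of `d` there are no conditions
because the classes in the local cohomology of `E^d[2]` are unramified (no points of order two).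
At the prime `2` the classes are in the group of the units `1 + 2 g₁ θ + 2 g₂ θ ^ 2` modulo `4` and
squares, and the image of `E^m(ℚ_2)`, for an arbitrary `m`, is computed modulo `4`: it is
`⟨1 + 2 θ⟩` if `m` is not `4 ^ k (4 l + 3)`, and `⟨1 + 2 θ + 2 θ ^ 2⟩` if it is. In the first case
the 2-Selmer group over `ℚ` is zero. In the second case the product of two
classes of Selmer elements which are not trivial at `2` is trivial at `2`, hence it is a square.
-/

set_option autoImplicit false
set_option linter.all false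

namespace Pool.Agent.Results.MP_788af2_nt.AllSmallTwists

open Filter

/-- The equation `y ^ 2 = x ^ 3 + A x + B` with integers `A`, `B` defines an elliptic curve, and
there is no prime `p` with `p ^ 4 ∣ A` and `p ^ 6 ∣ B`. -/
structure IsMinimal (A B : ℤ) : Prop where
  elliptic : 4 * A ^ 3 + 27 * B ^ 2 ≠ 0
  minimal : ∀ p : ℕ, p.Prime → ¬ ((p : ℤ) ^ 4 ∣ A ∧ (p : ℤ) ^ 6 ∣ B)

/-- The height. -/
def height (p : ℤ × ℤ) : ℤ := max (4 * |p.1| ^ 3) (27 * p.2 ^ 2)

/-- The set of all elliptic curves over `ℚ` of height at most `X`. -/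
def Curves (X : ℕ) : Set (ℤ × ℤ) := {p | IsMinimal p.1 p.2 ∧ height p ≤ X}

/-- The quadratic twist by `d` of the curve `y ^ 2 = x ^ 3 + A x + B`, `p = (A, B)`: the curve
`y ^ 2 = x ^ 3 + A d ^ 2 x + B d ^ 3` over `ℚ`. -/
def twist (p : ℤ × ℤ) (d : ℤ) : WeierstrassCurve ℚ := ⟨0, 0, 0, (p.1 : ℚ) * d ^ 2, (p.2 : ℚ) * d ^ 3⟩

/-- The group of the rational points of the twist. -/
abbrev Pts (p : ℤ × ℤ) (d : ℤ) : Type := (twist p d).toAffine.Point

/-- The rank of the twist. -/
noncomputable def rank (p : ℤ × ℤ) (d : ℤ) : ℕ := Module.finrank ℤ (Pts p d)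

/-- `d = 4 ^ k d'` with `d' = 3` modulo `4`. -/
def Exceptional (d : ℤ) : Prop := ∃ (k : ℕ) (d' : ℤ), d = 4 ^ k * d' ∧ d' % 4 = 3

/-- The number `d` is not zero and all its prime factors `q` are at most `N` or `X ^ 3 + A X + B` has no
zero modulo `q`. -/
def Admissible (N : ℕ) (p : ℤ × ℤ) (d : ℤ) : Prop :=
  d ≠ 0 ∧ ∀ q : ℕ, q.Prime → (q : ℤ) ∣ d → q ≤ N ∨ ∀ z : ℤ, ¬ (q : ℤ) ∣ z ^ 3 + p.1 * z + p.2

/-- All the twists of the curve `p` by the admissible `d` have rank at most one, and they have only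
finitely many rational points if `d` is not exceptional (the number of these is odd). -/
structure AllTwists (N : ℕ) (p : ℤ × ℤ) : Prop where
  one : ∀ d : ℤ, Admissible N p d → AddGroup.FG (Pts p d) ∧ rank p d ≤ 1
  zero : ∀ d : ℤ, Admissible N p d → ¬ Exceptional d →
    rank p d = 0 ∧ Finite (Pts p d) ∧ Odd (Nat.card (Pts p d))

theorem crv_iff (X : ℕ) (p : ℤ × ℤ) : Pool.Agent.N922.PQ.Crv X p.1 p.2 ↔ p ∈ Curves X := by
  constructor
  · rintro ⟨h1, h2, h3, h4⟩
    exact ⟨⟨h1, h2⟩, max_le h3 h4⟩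
  · rintro ⟨⟨h1, h2⟩, h3⟩
    exact ⟨h1, h2, (le_max_left _ _).trans h3, (le_max_right _ _).trans h3⟩

theorem nonempty {X : ℕ} (hX : 27 ≤ X) : ((1, 1) : ℤ × ℤ) ∈ Curves X := by
  refine ⟨⟨by norm_num, ?_⟩, ?_⟩
  · rintro p hp ⟨h, -⟩
    have h1 : ((p : ℤ)) ∣ 1 := (dvd_pow_self (p : ℤ) (by norm_num)).trans h
    have h2 : p ∣ 1 := by exact_mod_cast h1
    exact hp.one_lt.ne' (Nat.dvd_one.1 h2)
  · have : height ((1, 1) : ℤ × ℤ) = 27 := by
      simp [height]
    rw [this]
    exact_mod_cast hX

/-- A number `d` with `1 ≤ |d| ≤ N` is admissible. -/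
theorem admissible_of_le {N : ℕ} (p : ℤ × ℤ) {d : ℤ} (h0 : d ≠ 0) (h : |d| ≤ N) :
    Admissible N p d := by
  refine ⟨h0, fun q hq hqd => Or.inl ?_⟩
  have h1 := Int.le_of_dvd (abs_pos.2 h0) ((dvd_abs _ _).2 hqd)
  have h2 : (q : ℤ) ≤ N := h1.trans h
  exact_mod_cast h2

theorem adm_of {N : ℕ} {p : ℤ × ℤ} {d : ℤ} (h : Admissible N p d) :
    Pool.Agent.K6.H88.TW.Adm N p.1 p.2 d := by
  refine ⟨h.1, fun P hP hPd => ?_⟩
  obtain ⟨q, rfl⟩ : ∃ q : ℕ, P = q := ⟨P.toNat, by have := hP.1; omega⟩
  have hq : q.Prime := Nat.prime_iff_prime_int.2 hP.2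
  rcases h.2 q hq hPd with h1 | h1
  · left
    exact_mod_cast h1
  · exact Or.inr h1

theorem rank_zero_of_finite {G : Type*} [AddCommGroup G] [Finite G] : Module.finrank ℤ G = 0 := by
  have h : Module.rank ℤ G = 0 := by
    rw [rank_eq_zero_iff]
    intro x
    exact ⟨addOrderOf x, by exact_mod_cast (addOrderOf_pos x).ne', by
      rw [Nat.cast_smul_eq_nsmul]
      exact addOrderOf_nsmul_eq_zero x⟩
  rw [Module.finrank, h, map_zero]

theorem base_eq (p : ℤ × ℤ) (d : ℤ) :
    (Pool.Agent.N874.PP.sW (((p.1 * d ^ 2 : ℤ)) : ℚ) (((p.2 * d ^ 3 : ℤ)) : ℚ)).baseChange ℚ =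
      twist p d := by
  apply WeierstrassCurve.ext <;>
    simp [Pool.Agent.N874.PP.sW, twist, WeierstrassCurve.baseChange]

/-- For every `N` there is `c > 0` such that for all large `X` at least `c` times the number of all
elliptic curves over `ℚ` of height at most `X` have the following property. All their quadratic twists
by `d`, for `1 ≤ |d| ≤ N` and, more generally, for the `d` such that every prime factor `q` of `d` is at
most `N` or `X ^ 3 + A X + B` has no zero modulo `q`, have rank at most one, and those by `d` not of the form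
`4 ^ k d'` with `d' = 3` modulo `4` have rank zero. -/
theorem result (N : ℕ) :
    (∀ X : ℕ, (Curves X).Finite) ∧
    (∀ (p : ℤ × ℤ) (d : ℤ), d ≠ 0 → |d| ≤ N → Admissible N p d) ∧
    ∃ c : ℝ, 0 < c ∧ ∀ᶠ X : ℕ in atTop,
      0 < (Curves X).ncard ∧
      c * ((Curves X).ncard : ℝ) ≤ (({p ∈ Curves X | AllTwists N p}).ncard : ℝ) := by
  have hset : ∀ X : ℕ, Curves X = {p : ℤ × ℤ | Pool.Agent.N922.PQ.Crv X p.1 p.2} := by
    intro X
    ext p
    exact (crv_iff X p).symm
  have hfin : ∀ X : ℕ, (Curves X).Finite := fun X => by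
    rw [hset]
    exact Pool.Agent.N922.PQ.crv_fin X
  refine ⟨hfin, fun p d h0 h => admissible_of_le p h0 h, ?_⟩
  obtain ⟨c, hc, X₀, h⟩ := Pool.Agent.K6.H88.TW.mainT N
  refine ⟨c, hc, ?_⟩
  filter_upwards [eventually_ge_atTop (max X₀ 27)] with X hX
  refine ⟨(Set.ncard_pos (hfin X)).2 ⟨_, nonempty ((le_max_right _ _).trans hX)⟩, ?_⟩
  have h1 := (h X ((le_max_left _ _).trans hX)).2
  rw [← hset] at h1
  refine h1.trans ?_
  have h3 : {p : ℤ × ℤ | Pool.Agent.N922.PQ.Crv X p.1 p.2 ∧
      ∀ d, Pool.Agent.K6.H88.TW.Adm N p.1 p.2 d → Pool.Agent.K6.H88.TW.GoodTw p.1 p.2 d} ⊆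
        {p ∈ Curves X | AllTwists N p} := by
    rintro p ⟨hp, hall⟩
    have hz : ∀ d : ℤ, Admissible N p d → ¬ Exceptional d →
        rank p d = 0 ∧ Finite (Pts p d) ∧ Odd (Nat.card (Pts p d)) := by
      intro d hd hT
      obtain ⟨-, h4, h5, -⟩ := (hall d (adm_of hd)).zero hT
      have key : ∀ W : WeierstrassCurve ℚ,
          (Pool.Agent.N874.PP.sW (((p.1 * d ^ 2 : ℤ)) : ℚ) (((p.2 * d ^ 3 : ℤ)) : ℚ)).baseChange ℚ =
            W → Finite W.toAffine.Point ∧ Odd (Nat.card W.toAffine.Point) := by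
        rintro W rfl
        exact ⟨h4, h5⟩
      obtain ⟨k1, k2⟩ := key _ (base_eq p d)
      haveI : Finite (Pts p d) := k1
      exact ⟨rank_zero_of_finite, k1, k2⟩
    have ho : ∀ d : ℤ, Admissible N p d → Exceptional d →
        AddGroup.FG (Pts p d) ∧ rank p d ≤ 1 := by
      intro d hd hT
      obtain ⟨h4, h5⟩ := (hall d (adm_of hd)).one hT
      have key : ∀ (W : WeierstrassCurve ℚ) (inst : DecidableEq ℚ),
          (Pool.Agent.N874.PP.sW (((p.1 * d ^ 2 : ℤ)) : ℚ) (((p.2 * d ^ 3 : ℤ)) : ℚ)).baseChange ℚ =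
            W → AddGroup.FG W.toAffine.Point ∧ Module.finrank ℤ W.toAffine.Point ≤ 1 := by
        rintro W inst rfl
        have e : inst = fun a b => Classical.propDecidable (a = b) := Subsingleton.elim _ _
        subst e
        exact ⟨h4, h5⟩
      exact key _ _ (base_eq p d)
    refine ⟨(crv_iff X p).1 hp, fun d hd => ?_, hz⟩
    by_cases hT : Exceptional d
    · exact ho d hd hT
    · obtain ⟨k1, k2, -⟩ := hz d hd hT
      haveI : Finite (Pts p d) := k2
      haveI : AddMonoid.FG (Pts p d) := inferInstance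
      exact ⟨AddGroup.fg_iff_addMonoid_fg.2 inferInstance, k1.le.trans zero_le_one⟩
  have h4 := Set.ncard_le_ncard h3 ((hfin X).subset fun p hp => hp.1)
  exact_mod_cast h4

end Pool.Agent.Results.MP_788af2_nt.AllSmallTwists
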