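import Pool.Agent.K6.H88.TC.Max

/-!
# A positive proportion of all elliptic curves over `ℚ` has rank zero over infinitely many Galois
# extensions of 2-power degree at once

Let `K / ℚ` be any finite Galois extension of 2-power degree in which `2` is unramified, and `N` a number.

For a finite set `S` of primes and an elliptic curve `E : y ^ 2 = x ^ 3 + A x + B` over `ℚ` let `C(E)` be the
class of all finite Galois extensions `M / ℚ` of 2-power degree in which `2` is unramified, in which all
`q ∈ S` split completely and in which a prime `q > N` is ramified only if `x ^ 3 + A x + B` has no zero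
modulo `q` (that is, the number of points of `E` modulo `q` is odd).

Theorem. There are `S` and `c > 0` such that for all large `X` at least `c` times the number of
all elliptic curves `E / ℚ` of height at most `X` have the following properties. The field `K` is in the
class `C(E)`. For ALL fields `M ∈ C(E)` and all integers `d`, `d = 1` or `d = 2` modulo `4`, all prime
factors `q` of which are at most `N` or such that `x ^ 3 + A x + B` has no zero modulo `q`, the quadratic
twist `E ^ d` has trivial 2-Selmer group over `M`, `E ^ d (M)` is finite of odd order and `Ш(E ^ d / M)`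
has trivial 2-primary part; if `d = 1` modulo `4`, then `E ^ d (M) = 0`. In particular `E` has rank `0` over
all the fields `M(√d)`. The compositum `𝕄` of all fields in `C(E)` contains `√q` for
infinitely many primes `q`, so that it is an infinite Galois extension of `ℚ`, ramified at infinitely many
primes, and `E(𝕄) = 0`.

The proof. The curves are those of `MP_788af2_nt.AllSmallTwists`:
`y ^ 2 = x ^ 3 + a D ^ 2 x + b D ^ 3` with `a > 0`, `a = b = 3` modulo `4`, squarefree `4 a ^ 3 + 27 b ^ 2`, no
zero of `f = x ^ 3 + a x + b` modulo the primes in a finite set `T` (which contains those `≤ N` and those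
ramified in `K`), and `D` a product of primes in `S`, which are `1` modulo `8`, split completely in `K`
and modulo which `f = x (x ^ 2 + s)` with irreducible second factor. By the theorems of the projects PQ
and PV (helper922, in the starting files) for a positive proportion of these `(a, b)` there is a `D` such
that every element of `L = ℚ(θ)`, `f(θ) = 0`, of square norm, with even valuations outside of `D`, the
ramified condition at the primes dividing `D` and a unit modulo `4` in the class of `1` or of `1 + 2 θ` at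
the prime `2`, is a square. Here `D` does not depend on an extension.

Now let `M` be ANY field in the class, and `Ω = M(θ)`. The local conditions of the twist by `d D` define a
group of elements of `Ω` modulo squares, stable under `Gal(M / ℚ)`, and a descent along steps of degree
two shows that it is zero if its part coming from `L` is. Let `x ∈ L` be in it. At a prime
`P` of `L` over a prime `p` which is unramified in `M` the extension `Ω / L` is unramified (comparison of
inertia groups), so that `x` has even valuation; if `p` is ramified in `M` or divides `d`, then `f` has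
no zero modulo `p`, there is one prime of `L` over `p`, and the valuation is even because the norm is a
square. At a prime `p ∈ S`, `p` dividing `D`, an element of `L` is dense enough in the completion of
`Ω` because `p` splits completely in `M`. At the prime `2` the class of `x` modulo `4` comes from a
point of the twist over an unramified extension `F` of `ℚ_2`; for `d = 1` modulo `4` it is the class of `1`
or `1 + 2 θ` by the computations of helpers 323 and 951; for `d = 2` modulo `4` the points
of the twist over `F` have classes `n (u - v θ)` with `n = u ^ 3` modulo `4`, `u` a unit and `v` even,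
because `f` has no zero in the residue field, and this gives the classes `1 + 2 g θ`. So `x` is a square.

The infinitely many primes are given by the theorem of Chebotarev (project W401 of the starting files),
applied to an automorphism of order three of the splitting field of `f`, `x ^ 2 + 1` and `x ^ 2 - q`, `q ∈ S`,
and by the quadratic reciprocity law.
-/

set_option autoImplicit false
set_option linter.all false

namespace Pool.Agent.Results.MP_788af2_nt.AllTwoExtensions

open Filter NumberField IsDedekindDomain Pool.Agent.TH115.GD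
open scoped Classical

/-- The equation `y ^ 2 = x ^ 3 + A x + B` with integers `A`, `B` defines an elliptic curve, and
there is no prime `p` with `p ^ 4 ∣ A` and `p ^ 6 ∣ B`. -/
structure IsMinimal (A B : ℤ) : Prop where
  elliptic : 4 * A ^ 3 + 27 * B ^ 2 ≠ 0
  minimal : ∀ p : ℕ, p.Prime → ¬ ((p : ℤ) ^ 4 ∣ A ∧ (p : ℤ) ^ 6 ∣ B)

/-- The height. -/
def height (p : ℤ × ℤ) : ℤ := max (4 * |p.1| ^ 3) (27 * p.2 ^ 2)

/-- The set of all elliptic curves over `ℚ` of height at most `X`. -/
def Curves (X : ℕ) : Set (ℤ × ℤ) := {p | IsMinimal p.1 p.2 ∧ height p ≤ X}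

/-- The quadratic twist by `d` of the curve `y ^ 2 = x ^ 3 + A x + B`, `p = (A, B)`, over `M`: the curve
`y ^ 2 = x ^ 3 + A d ^ 2 x + B d ^ 3`. -/
def twist (M : Type) [Field M] (p : ℤ × ℤ) (d : ℤ) : WeierstrassCurve M :=
  ⟨0, 0, 0, ((p.1 * d ^ 2 : ℤ) : M), ((p.2 * d ^ 3 : ℤ) : M)⟩

section sha

variable (M : Type) [Field M] [NumberField M] (W : WeierstrassCurve M)

/-- The cocycle `f` of `Gal(Sep M / M)` is a coboundary over the completion of `M` at every maximal
ideal of the ring of integers. -/
def Locally (f : (Sep M ≃ₐ[M] Sep M) → Pt W (Sep M)) : Prop :=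
  ∀ v : HeightOneSpectrum (𝓞 M), LocTriv W (Comp (𝓞 M) M v) (Sep (Comp (𝓞 M) M v)) f

/-- The 2-Selmer group is zero: every continuous cocycle with values in the points of order two
which is a coboundary over all completions (at the finite places), with values in all points, is
the coboundary of a point of order two. -/
def SelTwoZero : Prop :=
  ∀ f : (Sep M ≃ₐ[M] Sep M) → Pt W (Sep M), IsCoc W f → (∀ σ, (2 : ℕ) • f σ = 0) →
    Locally M W f → ∃ T : Pt W (Sep M), (2 : ℕ) • T = 0 ∧ ∀ σ, f σ = act W (rs M σ) T - T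

/-- The 2-primary part of the Tate-Shafarevich group is zero: every continuous cocycle whose class
is killed by a power of two and which is a coboundary over all completions (at the finite places) is a
coboundary. -/
def ShaTwoZero : Prop :=
  ∀ f : (Sep M ≃ₐ[M] Sep M) → Pt W (Sep M), IsCoc W f → Locally M W f →
    (∃ (n : ℕ) (Q : Pt W (Sep M)), ∀ σ, 2 ^ n • f σ = act W (rs M σ) Q - Q) →
    ∃ Q : Pt W (Sep M), ∀ σ, f σ = act W (rs M σ) Q - Q

end sha

/-- The twist by `d` has trivial 2-Selmer group over `M`, trivial 2-primary part of the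
Tate-Shafarevich group over `M` and only finitely many points over `M`, an odd number; if `d = 1`
modulo `4`, then there is no point over `M` except the point at infinity. -/
structure GoodTwist (M : Type) [Field M] [NumberField M] (p : ℤ × ℤ) (d : ℤ) : Prop where
  sel : SelTwoZero M (twist M p d)
  sha : ShaTwoZero M (twist M p d)
  finite : Finite (Pt (twist M p d) M)
  odd : Odd (Nat.card (Pt (twist M p d) M))
  trivial : d % 4 = 1 → Subsingleton (Pt (twist M p d) M)

/-- The polynomial `X ^ 3 + A X + B`, `p = (A, B)`, has no zero modulo `q`. -/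
def NoZero (p : ℤ × ℤ) (q : ℕ) : Prop := ∀ z : ℤ, ¬ (q : ℤ) ∣ z ^ 3 + p.1 * z + p.2

/-- The number `d` is not zero and all its prime factors `q` are at most `N` or `X ^ 3 + A X + B` has no
zero modulo `q`. -/
def Admissible (N : ℕ) (p : ℤ × ℤ) (d : ℤ) : Prop :=
  d ≠ 0 ∧ ∀ q : ℕ, q.Prime → (q : ℤ) ∣ d → q ≤ N ∨ NoZero p q

/-- The prime `q` is unramified in `M`. -/
def Unramified (M : Type) [Field M] [NumberField M] (q : ℕ) : Prop :=
  ∀ 𝔭 : Ideal (𝓞 M), 𝔭.IsPrime → (q : 𝓞 M) ∉ 𝔭 ^ 2

/-- The prime `q` splits completely in `M`: it is unramified, and every integer of `M` is congruent to an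
element of `ℤ` modulo every prime over `q`. -/
def SplitsCompletely (M : Type) [Field M] [NumberField M] (q : ℕ) : Prop :=
  Unramified M q ∧ ∀ 𝔭 : Ideal (𝓞 M), 𝔭.IsPrime → (q : 𝓞 M) ∈ 𝔭 → ∀ x : 𝓞 M, ∃ n : ℤ, x - n ∈ 𝔭

/-- The class of the Galois extensions `M / ℚ` of 2-power degree in which `2` is unramified, in which the
primes in `S` split completely and in which only such primes `q > N` are ramified modulo which
`X ^ 3 + A X + B` has no zero. -/
structure InClass (N : ℕ) (S : Finset ℕ) (p : ℤ × ℤ) (M : Type) [Field M] [NumberField M] :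
    Prop where
  galois : IsGalois ℚ M
  degree : ∃ n : ℕ, Module.finrank ℚ M = 2 ^ n
  two : Unramified M 2
  split : ∀ q ∈ S, SplitsCompletely M q
  ramified : ∀ q : ℕ, q.Prime → ¬ Unramified M q → q ≤ N ∨ NoZero p q

/-- The compositum of all subfields of the algebraic closure of `ℚ` which are in the class. -/
noncomputable def compositum (N : ℕ) (S : Finset ℕ) (p : ℤ × ℤ) :
    IntermediateField ℚ (AlgebraicClosure ℚ) :=
  sSup {F | ∃ _ : NumberField F, InClass N S p F}

/-- The field `K` is in the class of the curve `p = (A, B)`. All the twists of the curve by admissible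
`d`, `d = 1` or `d = 2` modulo `4`, are good over all the fields in the class. The compositum of
the class contains the square roots of infinitely many primes, and the curve has no point over the
compositum except the point at infinity. -/
structure Uniform (N : ℕ) (S : Finset ℕ) (K : Type) [Field K] [NumberField K] (p : ℤ × ℤ) :
    Prop where
  given : InClass N S p K
  good : ∀ (M : Type) [Field M] [NumberField M], InClass N S p M → ∀ d : ℤ, Admissible N p d →
    (d % 4 = 1 ∨ d % 4 = 2) → GoodTwist M p d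
  infinite : {q : ℕ | q.Prime ∧ ∃ r ∈ compositum N S p, r ^ 2 = (q : AlgebraicClosure ℚ)}.Infinite
  none : ∀ x ∈ compositum N S p, ∀ y ∈ compositum N S p,
    y ^ 2 ≠ x ^ 3 + (p.1 : AlgebraicClosure ℚ) * x + (p.2 : AlgebraicClosure ℚ)

theorem crv_iff (X : ℕ) (p : ℤ × ℤ) : Pool.Agent.N922.PQ.Crv X p.1 p.2 ↔ p ∈ Curves X := by
  constructor
  · rintro ⟨h1, h2, h3, h4⟩
    exact ⟨⟨h1, h2⟩, max_le h3 h4⟩
  · rintro ⟨⟨h1, h2⟩, h3⟩
    exact ⟨h1, h2, (le_max_left _ _).trans h3, (le_max_right _ _).trans h3⟩

theorem nonempty {X : ℕ} (hX : 27 ≤ X) : ((1, 1) : ℤ × ℤ) ∈ Curves X := by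
  refine ⟨⟨by norm_num, ?_⟩, ?_⟩
  · rintro p hp ⟨h, -⟩
    have h1 : ((p : ℤ)) ∣ 1 := (dvd_pow_self (p : ℤ) (by norm_num)).trans h
    have h2 : p ∣ 1 := by exact_mod_cast h1
    exact hp.one_lt.ne' (Nat.dvd_one.1 h2)
  · have : height ((1, 1) : ℤ × ℤ) = 27 := by
      simp [height]
    rw [this]
    exact_mod_cast hX

open Pool.Agent.N922.PQ (Ov IsPr)
open Pool.Agent.K6.H88.TC

theorem unr_iff {M : Type} [Field M] [NumberField M] {q : ℕ} (hq : q ≠ 0) :
    Unramified M q ↔ Unr M (q : ℤ) := by
  have e : ∀ w : HeightOneSpectrum (𝓞 M), w.valuation M ((q : ℤ) : M) = w.intValuation (q : 𝓞 M) := by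
    intro w
    rw [← HeightOneSpectrum.valuation_of_algebraMap (K := M)]
    congr 1
    push_cast
    rfl
  constructor
  · intro h w hw
    rw [e]
    have h2 : (q : 𝓞 M) ∈ w.asIdeal := by
      have := hw
      unfold Ov at this
      simpa using this
    have h3 := h w.asIdeal w.isPrime
    have a1 : w.intValuation (q : 𝓞 M) ≤ WithZero.exp (-((1 : ℕ) : ℤ)) := by
      rw [HeightOneSpectrum.intValuation_le_pow_iff_mem, pow_one]
      exact h2
    have a2 : ¬ w.intValuation (q : 𝓞 M) ≤ WithZero.exp (-((2 : ℕ) : ℤ)) := by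
      rw [HeightOneSpectrum.intValuation_le_pow_iff_mem]
      exact h3
    have h0 : w.intValuation (q : 𝓞 M) ≠ 0 := by
      intro h0
      apply a2
      rw [h0]
      exact zero_le'
    rw [← WithZero.exp_log h0] at a1 a2 ⊢
    rw [WithZero.exp_le_exp] at a1 a2
    congr 1
    push_cast at a1 a2
    omega
  · intro h 𝔭 h𝔭 hq2
    have hne : 𝔭 ≠ ⊥ := by
      rintro rfl
      rw [Ideal.bot_pow (by norm_num), Ideal.mem_bot] at hq2
      exact hq (by exact_mod_cast hq2)
    let w : HeightOneSpectrum (𝓞 M) := ⟨𝔭, h𝔭, hne⟩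
    have hw : Ov (q : ℤ) w := by
      change ((q : ℤ) : 𝓞 M) ∈ 𝔭
      have := Ideal.pow_le_self (by norm_num : 2 ≠ 0) hq2
      simpa using this
    have h1 := h w hw
    rw [e] at h1
    have h2 : w.intValuation (q : 𝓞 M) ≤ WithZero.exp (-((2 : ℕ) : ℤ)) := by
      rw [HeightOneSpectrum.intValuation_le_pow_iff_mem]
      exact hq2
    rw [h1, WithZero.exp_le_exp] at h2
    norm_num at h2

theorem spl_iff {M : Type} [Field M] [NumberField M] {q : ℕ} (hq : q ≠ 0) :
    SplitsCompletely M q ↔ Spl M (q : ℤ) := by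
  constructor
  · rintro ⟨h1, h2⟩ w hw
    refine ⟨(unr_iff hq).1 h1 w hw, h2 w.asIdeal w.isPrime ?_⟩
    have := hw
    unfold Ov at this
    simpa using this
  · intro h
    refine ⟨(unr_iff hq).2 fun w hw => (h w hw).1, fun 𝔭 h𝔭 hq𝔭 => ?_⟩
    have hne : 𝔭 ≠ ⊥ := by
      rintro rfl
      rw [Ideal.mem_bot] at hq𝔭
      exact hq (by exact_mod_cast hq𝔭)
    refine (h ⟨𝔭, h𝔭, hne⟩ ?_).2
    change ((q : ℤ) : 𝓞 M) ∈ 𝔭
    simpa using hq𝔭

theorem cls_iff {N : ℕ} {S : Finset ℤ} (hS : ∀ Q ∈ S, IsPr Q) {p : ℤ × ℤ} {M : Type} [Field M]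
    [NumberField M] : InClass N (S.image Int.toNat) p M ↔ InCls N S p.1 p.2 M := by
  have hnat : ∀ P : ℤ, IsPr P → ∃ q : ℕ, P = q ∧ q.Prime := by
    intro P hP
    obtain ⟨q, rfl⟩ : ∃ q : ℕ, P = q := ⟨P.toNat, by have := hP.1; omega⟩
    exact ⟨q, rfl, Nat.prime_iff_prime_int.2 hP.2⟩
  constructor
  · rintro ⟨h1, h2, h3, h4, h5⟩
    refine ⟨h1, h2, by exact_mod_cast (unr_iff two_ne_zero).1 h3, fun Q hQ => ?_, fun P hP hu => ?_⟩
    · obtain ⟨q, rfl, hq⟩ := hnat Q (hS Q hQ)
      exact (spl_iff hq.ne_zero).1 (h4 q (Finset.mem_image.2 ⟨q, hQ, by simp⟩))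
    · obtain ⟨q, rfl, hq⟩ := hnat P hP
      rcases h5 q hq fun h => hu ((unr_iff hq.ne_zero).1 h) with h | h
      · left
        exact_mod_cast h
      · exact Or.inr h
  · rintro ⟨h1, h2, h3, h4, h5⟩
    refine ⟨h1, h2, (unr_iff two_ne_zero).2 (by exact_mod_cast h3), fun q hq => ?_,
      fun q hq hu => ?_⟩
    · obtain ⟨Q, hQ, rfl⟩ := Finset.mem_image.1 hq
      obtain ⟨r, rfl, hr⟩ := hnat Q (hS Q hQ)
      rw [Int.toNat_natCast]
      exact (spl_iff hr.ne_zero).2 (h4 _ hQ)
    · rcases h5 q ⟨by exact_mod_cast hq.pos, Nat.prime_iff_prime_int.1 hq⟩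
        fun h => hu ((unr_iff hq.ne_zero).2 h) with h | h
      · left
        exact_mod_cast h
      · exact Or.inr h

theorem comp_eq {N : ℕ} {S : Finset ℤ} (hS : ∀ Q ∈ S, IsPr Q) {p : ℤ × ℤ} :
    compositum N (S.image Int.toNat) p = MX N S p.1 p.2 := by
  have e : {F : IntermediateField ℚ (AlgebraicClosure ℚ) | ∃ _ : NumberField F,
      InClass N (S.image Int.toNat) p F} = ClsSet N S p.1 p.2 := by
    ext F
    constructor
    · rintro ⟨i, h⟩
      exact ⟨i, (cls_iff hS).1 h⟩
    · rintro ⟨i, h⟩
      exact ⟨i, (cls_iff hS).2 h⟩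
  rw [compositum, e, MX]

theorem adm_of {N : ℕ} {p : ℤ × ℤ} {d : ℤ} (h : Admissible N p d) :
    Pool.Agent.K6.H88.TW.Adm N p.1 p.2 d := by
  refine ⟨h.1, fun P hP hPd => ?_⟩
  obtain ⟨q, rfl⟩ : ∃ q : ℕ, P = q := ⟨P.toNat, by have := hP.1; omega⟩
  have hq : q.Prime := Nat.prime_iff_prime_int.2 hP.2
  rcases h.2 q hq hPd with h1 | h1
  · left
    exact_mod_cast h1
  · exact Or.inr h1

theorem good_of {M : Type} [Field M] [NumberField M] {p : ℤ × ℤ} {d : ℤ}
    (h : GoodE M p.1 p.2 d) : GoodTwist M p d := by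
  obtain ⟨⟨h1, h2, h3, h4⟩, h5⟩ := h
  exact ⟨h1, h4, h2, h3, h5⟩

/-- For every Galois extension `K / ℚ` of 2-power degree in which `2` is unramified and every `N` there
are a finite set `S` of primes and `c > 0` such that for all large `X` at least `c` times
the number of all elliptic curves `E` over `ℚ` of height at most `X` satisfy `Uniform`: the twists of
`E` by all admissible `d` which are `1` or `2` modulo `4` have trivial 2-Selmer group, rank zero
and trivial 2-primary part of the Tate-Shafarevich group over ALL fields in the class given by `E` and `S`,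
and `E` has no point over the compositum of all these fields, which is an infinite extension of `ℚ`. -/
theorem result (N : ℕ) (K : Type) [Field K] [NumberField K] [IsGalois ℚ K] (n : ℕ)
    (hn : Module.finrank ℚ K = 2 ^ n) (h2 : Unramified K 2) :
    (∀ X : ℕ, (Curves X).Finite) ∧
    ∃ S : Finset ℕ, (∀ q ∈ S, q.Prime ∧ SplitsCompletely K q) ∧
      ∃ c : ℝ, 0 < c ∧ ∀ᶠ X : ℕ in atTop,
        0 < (Curves X).ncard ∧
        c * ((Curves X).ncard : ℝ) ≤ (({p ∈ Curves X | Uniform N S K p}).ncard : ℝ) := by
  have hset : ∀ X : ℕ, Curves X = {p : ℤ × ℤ | Pool.Agent.N922.PQ.Crv X p.1 p.2} := by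
    intro X
    ext p
    exact (crv_iff X p).symm
  have hfin : ∀ X : ℕ, (Curves X).Finite := fun X => by
    rw [hset]
    exact Pool.Agent.N922.PQ.crv_fin X
  refine ⟨hfin, ?_⟩
  obtain ⟨S, hS, hKS, c, hc, X₀, h⟩ := mainD N K
  have hS' : ∀ Q ∈ S, IsPr Q := fun Q hQ => (hS Q hQ).1
  refine ⟨S.image Int.toNat, fun q hq => ?_, c, hc, ?_⟩
  · obtain ⟨Q, hQ, rfl⟩ := Finset.mem_image.1 hq
    obtain ⟨q, rfl⟩ : ∃ q : ℕ, Q = q := ⟨Q.toNat, by have := (hS' Q hQ).1; omega⟩
    have hqp : q.Prime := Nat.prime_iff_prime_int.2 (hS' _ hQ).2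
    rw [Int.toNat_natCast]
    exact ⟨hqp, (spl_iff hqp.ne_zero).2 (hKS _ hQ)⟩
  filter_upwards [eventually_ge_atTop (max X₀ 27)] with X hX
  refine ⟨(Set.ncard_pos (hfin X)).2 ⟨_, nonempty ((le_max_right _ _).trans hX)⟩, ?_⟩
  have h1 := (h X ((le_max_left _ _).trans hX)).2
  rw [← hset] at h1
  refine h1.trans ?_
  have h3 : {p : ℤ × ℤ | Pool.Agent.N922.PQ.Crv X p.1 p.2 ∧
      ((∀ P : ℤ, IsPr P → ¬ Unr K P → NZ p.1 p.2 P) ∧
        (∀ P : ℤ, IsPr P → P ≤ N → NZ p.1 p.2 P) ∧
        (∀ t : ℚ, t ^ 3 + (p.1 : ℚ) * t + (p.2 : ℚ) ≠ 0) ∧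
        ∀ (M : Type) [Field M] [NumberField M], InCls N S p.1 p.2 M →
          ∀ d : ℤ, (d % 4 = 1 ∨ d % 4 = 2) → Pool.Agent.K6.H88.TW.Adm N p.1 p.2 d →
            GoodE M p.1 p.2 d)} ⊆ {p ∈ Curves X | Uniform N (S.image Int.toNat) K p} := by
    rintro p ⟨hp, hK, -, hirr, hall⟩
    have hKc : InCls N S p.1 p.2 K :=
      ⟨inferInstance, ⟨n, hn⟩, by exact_mod_cast (unr_iff two_ne_zero).1 h2, hKS,
        fun P hP hu => Or.inr (hK P hP hu)⟩
    have hone : Pool.Agent.K6.H88.TW.Adm N p.1 p.2 1 := by
      refine ⟨one_ne_zero, fun P hP hPd => ?_⟩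
      exact absurd (isUnit_of_dvd_one hPd) hP.2.not_unit
    refine ⟨(crv_iff X p).1 hp, (cls_iff hS').2 hKc, ?_, ?_, ?_⟩
    · intro M _ _ hM d hd hd4
      exact good_of (hall M ((cls_iff hS').1 hM) d hd4 (adm_of hd))
    · refine (inf_q hp.disc hirr hS).mono fun q hq => ?_
      obtain ⟨r, hr, hr2⟩ := sqrt_MX (N := N) hS hq
      refine ⟨hq.1, r, ?_, hr2⟩
      rw [comp_eq hS']
      exact hr
    · intro x hx y hy
      rw [comp_eq hS'] at hx hy
      have hne : (ClsSet N S p.1 p.2).Nonempty := by
        obtain ⟨φ⟩ : Nonempty (K →+* AlgebraicClosure ℚ) :=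
          ⟨(IsAlgClosed.lift (R := ℚ) (S := K) (M := AlgebraicClosure ℚ)).toRingHom⟩
        exact ⟨_, range_mem hS' φ hKc⟩
      exact none_MX hS' hne hp.disc (fun M _ _ hM => hall M hM 1 (Or.inl rfl) hone) x y hx hy
  have h4 := Set.ncard_le_ncard h3 ((hfin X).subset fun p hp => hp.1)
  exact_mod_cast h4

end Pool.Agent.Results.MP_788af2_nt.AllTwoExtensions
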