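import Pool.Agent.K6.H88.AV.Fin
import Pool.Agent.K6.H88.TC.Cls

/-!
# The average over all curves of an explicit family of the supremum of the normalised 2-Selmer groups over
# all subfields of all Galois extensions of 2-power degree in infinite classes

For a number `N` let `F_N` be the family of the elliptic curves `E : y ^ 2 = x ^ 3 + A x + B` over `ℚ` with
`A > 0`, `4 A ^ 3 + 27 B ^ 2` squarefree and `x ^ 3 + A x + B` without zero modulo the primes `q ≤ N` and
`q = 2`, `q = 3`. It has positive density among all elliptic curves, ordered by height.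

For an elliptic curve `E` in the family let `C(E)` be the class of all Galois extensions `M / ℚ` of 2-power
degree in which a prime `q` is ramified only if `x ^ 3 + A x + B` has no zero modulo `q`. So it contains all
Galois extensions of 2-power degree which are unramified outside of the primes `q ≤ N`, with
arbitrary (wild) ramification at `2` and with `A`, `B` independent of the extension; and it contains `ℚ(√q)`
for infinitely many primes `q`. Let `D(E)` be the set of all integers `d ≠ 0` whose prime factors `q` all have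
this property.

Theorem. There is a function `r` on the set of all elliptic curves such that for all `N`

* for all curves `E` in the family `F_N`, all fields `M` in the class `C(E)`, all subfields `F` of `M` and all
  `d` in `D(E)`: the 2-Selmer group of the quadratic twist `E ^ d` over `F` has at most `r(E) ^ [F : ℚ]`
  elements, `2 ^ rank E ^ d (F) ≤ r(E) ^ [F : ℚ]`, and for all subfields `F'` of `F`
  `2 ^ (rank E ^ d (F) - rank E ^ d (F')) ≤ r(E) ^ ([F : ℚ] - [F' : ℚ])`;
* the average of `r(E)` over the curves `E` in `F_N` of height at most `X` is bounded for `X → ∞`.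

In other words: the average over all curves of the family of
`sup_{F, d} (# Sel_2(E ^ d / F)) ^ (1 / [F : ℚ])`, where the supremum is over infinitely many fields `F` of
unbounded degree and infinitely many twists, is finite. In particular, for every `ε > 0` there is `k` such that
for all curves `E` of the family up to a proportion of at most `ε` we have, for
all these fields `F` and twists `d` at the same time, `rank E ^ d (F) ≤ k [F : ℚ]`.

The proof. Let `L = ℚ(θ)` with `f(θ) = 0`, `f = x ^ 3 + A x + B`, and let `H(E)` be the group of the `x ∈ L ^ *`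
modulo squares which have square norm and even valuations at all primes of `L`. Put `r(E) = # H(E)`.

1. Let `M` be in the class and `Ω = M(θ)`, a Galois extension of `L` with group `G = Gal(M / ℚ)`. By the descent
of the projects PQ (helper922, in the starting files) and `SelmerAndRankBounds` the 2-Selmer group of `E ^ d`
over `M` is contained in the group `V` of the classes of `Ω ^ *` modulo squares with square norm to `M` and
even valuations at the primes which are not over `q` with `q` ramified in `M` or `q ∣ 6 d`; and if a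
subgroup of `V` which is stable under `G` contains no class of a nonsquare of `L`, then it is zero (induction over
a tower of quadratic extensions). The classes of `V` which come from `L` are in `H(E)`: at the primes over `q`
all elements of `L` of square norm have even valuations, because `q` is inert in the cubic field. So
there is an `𝔽_2`-linear map `χ` from `Ω ^ *` modulo squares to the subgroup `W` of the classes in `V` which come
from `L`, `# W ≤ r(E)`, which is the identity on `W`. By the descent `x ↦ (χ(σ x))_{σ ∈ G}` is an embedding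
of `V` in the group of functions `G → W`. For subfields one uses the functions on the embeddings of the subfield.

2. The nontrivial classes in `H(E)` for `A > 0` come from tuples of integers in a box (Minkowski's theorem for a
quadratic form given by the class), by project PQ; here it is shown in addition that different classes give
different orbits of tuples. So the total number of nontrivial classes of the curves of height at
most `X` is `O(X ^ (5 / 6))`, which is the order of the number of curves.
-/

set_option autoImplicit false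
set_option linter.all false

namespace Pool.Agent.Results.MP_788af2_nt.AverageOverTwoExtensions

open Filter NumberField IsDedekindDomain Pool.Agent.TH115.GD
open scoped Classical

/-- The equation `y ^ 2 = x ^ 3 + A x + B` with integers `A`, `B` defines an elliptic curve, and
there is no prime `p` with `p ^ 4 ∣ A` and `p ^ 6 ∣ B`. -/
structure IsMinimal (A B : ℤ) : Prop where
  elliptic : 4 * A ^ 3 + 27 * B ^ 2 ≠ 0
  minimal : ∀ p : ℕ, p.Prime → ¬ ((p : ℤ) ^ 4 ∣ A ∧ (p : ℤ) ^ 6 ∣ B)

/-- The height. -/
def height (p : ℤ × ℤ) : ℤ := max (4 * |p.1| ^ 3) (27 * p.2 ^ 2)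

/-- The set of all elliptic curves over `ℚ` of height at most `X`. -/
def Curves (X : ℕ) : Set (ℤ × ℤ) := {p | IsMinimal p.1 p.2 ∧ height p ≤ X}

/-- The polynomial `X ^ 3 + A X + B`, `p = (A, B)`, has no zero modulo `q`. -/
def NoZero (p : ℤ × ℤ) (q : ℕ) : Prop := ∀ z : ℤ, ¬ (q : ℤ) ∣ z ^ 3 + p.1 * z + p.2

/-- The conditions for the curves of the family. -/
structure Nice (N : ℕ) (p : ℤ × ℤ) : Prop where
  pos : 0 < p.1
  squarefree : Squarefree (4 * p.1 ^ 3 + 27 * p.2 ^ 2)
  noZero : ∀ q : ℕ, q.Prime → q ≤ max N 3 → NoZero p q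

/-- The curves of the family of height at most `X`. -/
def Family (N X : ℕ) : Set (ℤ × ℤ) := {p ∈ Curves X | Nice N p}

/-- The quadratic twist by `d` of the curve `y ^ 2 = x ^ 3 + A x + B`, `p = (A, B)`, over `M`: the curve
`y ^ 2 = x ^ 3 + A d ^ 2 x + B d ^ 3`. -/
def twist (M : Type) [Field M] (p : ℤ × ℤ) (d : ℤ) : WeierstrassCurve M :=
  ⟨0, 0, 0, ((p.1 * d ^ 2 : ℤ) : M), ((p.2 * d ^ 3 : ℤ) : M)⟩

section selmer

variable (M : Type) [Field M] [NumberField M] (W : WeierstrassCurve M)

/-- The cocycle `f` of `Gal(Sep M / M)` is a coboundary over the completion of `M` at every maximal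
ideal of the ring of integers. -/
def Locally (f : (Sep M ≃ₐ[M] Sep M) → Pt W (Sep M)) : Prop :=
  ∀ v : HeightOneSpectrum (𝓞 M), LocTriv W (Comp (𝓞 M) M v) (Sep (Comp (𝓞 M) M v)) f

/-- The 2-Selmer group has at most `k` elements: if `f 0, ..., f k` are continuous cocycles with values in
the points of order two which are coboundaries over all completions (at the finite places), with
values in all points, then two of them differ by the coboundary of a point of order two. -/
def SelmerAtMost (k : ℕ) : Prop :=
  ∀ f : Fin (k + 1) → (Sep M ≃ₐ[M] Sep M) → Pt W (Sep M), (∀ i, IsCoc W (f i)) →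
    (∀ i σ, (2 : ℕ) • f i σ = 0) → (∀ i, Locally M W (f i)) →
    ∃ i j, i ≠ j ∧ ∃ T : Pt W (Sep M), (2 : ℕ) • T = 0 ∧
      ∀ σ, f i σ - f j σ = act W (rs M σ) T - T

end selmer

/-- The number `d` is not zero and `X ^ 3 + A X + B` has no zero modulo the prime factors `q` of `d`. -/
def Admissible (p : ℤ × ℤ) (d : ℤ) : Prop :=
  d ≠ 0 ∧ ∀ q : ℕ, q.Prime → (q : ℤ) ∣ d → NoZero p q

/-- The prime `q` is unramified in `M`. -/
def Unramified (M : Type) [Field M] [NumberField M] (q : ℕ) : Prop :=
  ∀ 𝔭 : Ideal (𝓞 M), 𝔭.IsPrime → (q : 𝓞 M) ∉ 𝔭 ^ 2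

/-- The class of the Galois extensions `M / ℚ` of 2-power degree in which a prime `q` is ramified
only if `X ^ 3 + A X + B` has no zero modulo `q`. -/
structure InClass (p : ℤ × ℤ) (M : Type) [Field M] [NumberField M] : Prop where
  galois : IsGalois ℚ M
  degree : ∃ n : ℕ, Module.finrank ℚ M = 2 ^ n
  ramified : ∀ q : ℕ, q.Prime → ¬ Unramified M q → NoZero p q

/-- The rank over `F` of the twist by `d`. -/
noncomputable def rank (F : Type) [Field F] (p : ℤ × ℤ) (d : ℤ) : ℕ :=
  Module.finrank ℤ (Pt (twist F p d) F)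

/-- The bounds for the twist by `d` over `F` given by the number `r`: for the 2-Selmer group, for the rank and
for the growth of the rank from a subfield. -/
structure Bounds (F : Type) [Field F] [NumberField F] (p : ℤ × ℤ) (d : ℤ) (r : ℕ) : Prop where
  selmer : SelmerAtMost F (twist F p d) (r ^ Module.finrank ℚ F)
  fg : AddGroup.FG (Pt (twist F p d) F)
  rank_le : 2 ^ rank F p d ≤ r ^ Module.finrank ℚ F
  growth : ∀ (F' : Type) [Field F'] [NumberField F'] (_ : F' →+* F),
    2 ^ rank F p d * r ^ Module.finrank ℚ F' ≤ 2 ^ rank F' p d * r ^ Module.finrank ℚ F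

/-- The bounds given by `r` hold for all twists of the curve by admissible `d` over all subfields `F` of all
fields `M` in the class. -/
def Bounded (p : ℤ × ℤ) (r : ℕ) : Prop :=
  ∀ (M : Type) [Field M] [NumberField M], InClass p M → ∀ d : ℤ, Admissible p d →
    ∀ (F : Type) [Field F] [NumberField F] (_ : F →+* M), Bounds F p d r

/-- The class contains all Galois extensions of 2-power degree which are unramified outside of the primes up to
`N` and the quadratic fields given by the square roots of infinitely many primes. -/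
structure LargeClass (N : ℕ) (p : ℤ × ℤ) : Prop where
  outside : ∀ (M : Type) [Field M] [NumberField M], IsGalois ℚ M →
    (∃ n : ℕ, Module.finrank ℚ M = 2 ^ n) → (∀ q : ℕ, q.Prime → N < q → Unramified M q) → InClass p M
  infinite : {q : ℕ | q.Prime ∧ ∀ (M : Type) [Field M] [NumberField M], Module.finrank ℚ M = 2 →
    (∃ x : M, x ^ 2 = (q : M)) → InClass p M}.Infinite

theorem crv_iff (X : ℕ) (p : ℤ × ℤ) : Pool.Agent.N922.PQ.Crv X p.1 p.2 ↔ p ∈ Curves X := by
  constructor
  · rintro ⟨h1, h2, h3, h4⟩
    exact ⟨⟨h1, h2⟩, max_le h3 h4⟩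
  · rintro ⟨⟨h1, h2⟩, h3⟩
    exact ⟨h1, h2, (le_max_left _ _).trans h3, (le_max_right _ _).trans h3⟩

theorem nonempty {X : ℕ} (hX : 27 ≤ X) : ((1, 1) : ℤ × ℤ) ∈ Curves X := by
  refine ⟨⟨by norm_num, ?_⟩, ?_⟩
  · rintro p hp ⟨h, -⟩
    have h1 : ((p : ℤ)) ∣ 1 := (dvd_pow_self (p : ℤ) (by norm_num)).trans h
    have h2 : p ∣ 1 := by exact_mod_cast h1
    exact hp.one_lt.ne' (Nat.dvd_one.1 h2)
  · have : height ((1, 1) : ℤ × ℤ) = 27 := by
      simp [height]
    rw [this]
    exact_mod_cast hX

open Pool.Agent.N922.PQ (Ov IsPr)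
open Pool.Agent.K6.H88.TC
open Pool.Agent.K6.H88.AV

theorem unr_iff {M : Type} [Field M] [NumberField M] {q : ℕ} (hq : q ≠ 0) :
    Unramified M q ↔ Unr M (q : ℤ) := by
  have e : ∀ w : HeightOneSpectrum (𝓞 M), w.valuation M ((q : ℤ) : M) = w.intValuation (q : 𝓞 M) := by
    intro w
    rw [← HeightOneSpectrum.valuation_of_algebraMap (K := M)]
    congr 1
    push_cast
    rfl
  constructor
  · intro h w hw
    rw [e]
    have h2 : (q : 𝓞 M) ∈ w.asIdeal := by
      have := hw
      unfold Ov at this
      simpa using this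
    have h3 := h w.asIdeal w.isPrime
    have a1 : w.intValuation (q : 𝓞 M) ≤ WithZero.exp (-((1 : ℕ) : ℤ)) := by
      rw [HeightOneSpectrum.intValuation_le_pow_iff_mem, pow_one]
      exact h2
    have a2 : ¬ w.intValuation (q : 𝓞 M) ≤ WithZero.exp (-((2 : ℕ) : ℤ)) := by
      rw [HeightOneSpectrum.intValuation_le_pow_iff_mem]
      exact h3
    have h0 : w.intValuation (q : 𝓞 M) ≠ 0 := by
      intro h0
      apply a2
      rw [h0]
      exact zero_le'
    rw [← WithZero.exp_log h0] at a1 a2 ⊢
    rw [WithZero.exp_le_exp] at a1 a2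
    congr 1
    push_cast at a1 a2
    omega
  · intro h 𝔭 h𝔭 hq2
    have hne : 𝔭 ≠ ⊥ := by
      rintro rfl
      rw [Ideal.bot_pow (by norm_num), Ideal.mem_bot] at hq2
      exact hq (by exact_mod_cast hq2)
    let w : HeightOneSpectrum (𝓞 M) := ⟨𝔭, h𝔭, hne⟩
    have hw : Ov (q : ℤ) w := by
      change ((q : ℤ) : 𝓞 M) ∈ 𝔭
      have := Ideal.pow_le_self (by norm_num : 2 ≠ 0) hq2
      simpa using this
    have h1 := h w hw
    rw [e] at h1
    have h2 : w.intValuation (q : 𝓞 M) ≤ WithZero.exp (-((2 : ℕ) : ℤ)) := by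
      rw [HeightOneSpectrum.intValuation_le_pow_iff_mem]
      exact hq2
    rw [h1, WithZero.exp_le_exp] at h2
    norm_num at h2

theorem hnat (P : ℤ) (hP : IsPr P) : ∃ q : ℕ, P = q ∧ q.Prime := by
  obtain ⟨q, rfl⟩ : ∃ q : ℕ, P = q := ⟨P.toNat, by have := hP.1; omega⟩
  exact ⟨q, rfl, Nat.prime_iff_prime_int.2 hP.2⟩

theorem pr_nat {q : ℕ} (hq : q.Prime) : IsPr (q : ℤ) :=
  ⟨by exact_mod_cast hq.pos, Nat.prime_iff_prime_int.1 hq⟩

theorem nice_iff {N : ℕ} {p : ℤ × ℤ} : Nice N p ↔ Nce N p.1 p.2 := by
  constructor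
  · rintro ⟨h1, h2, h3⟩
    refine ⟨h1, h2, fun P hP hPN => ?_⟩
    obtain ⟨q, rfl, hq⟩ := hnat P hP
    exact h3 q hq (by exact_mod_cast hPN)
  · rintro ⟨h1, h2, h3⟩
    exact ⟨h1, h2, fun q hq hqN => h3 q (pr_nat hq) (by exact_mod_cast hqN)⟩

theorem fam_eq (N X : ℕ) : Family N X =
    {p : ℤ × ℤ | Pool.Agent.N922.PQ.Crv X p.1 p.2 ∧ Nce N p.1 p.2} := by
  ext p
  exact and_congr (crv_iff X p).symm nice_iff

theorem sel_mono {M : Type} [Field M] [NumberField M] {W : WeierstrassCurve M} {k l : ℕ} (hkl : k ≤ l)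
    (h : SelmerAtMost M W k) : SelmerAtMost M W l := by
  intro f h1 h2 h3
  obtain ⟨i, j, hij, hT⟩ := h (fun i => f (Fin.castLE (by omega) i)) (fun i => h1 _) (fun i => h2 _)
    (fun i => h3 _)
  exact ⟨_, _, fun he => hij (Fin.castLE_injective _ he), hT⟩

theorem bounds_mono {F : Type} [Field F] [NumberField F] {p : ℤ × ℤ} {d : ℤ} {r k : ℕ} (hrk : r ≤ k)
    (h : Bounds F p d r) : Bounds F p d k := by
  refine ⟨sel_mono (Nat.pow_le_pow_left hrk _) h.selmer, h.fg,
    h.rank_le.trans (Nat.pow_le_pow_left hrk _), fun F' _ _ j => ?_⟩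
  have h1 := h.growth F' j
  have hr0 : 0 < r := by
    rcases Nat.eq_zero_or_pos r with h0 | h0
    · exfalso
      have h2 := h.rank_le
      rw [h0, zero_pow (Module.finrank_pos (R := ℚ) (M := F)).ne'] at h2
      have := Nat.two_pow_pos (rank F p d)
      omega
    · exact h0
  have hle : Module.finrank ℚ F' ≤ Module.finrank ℚ F := by
    letI : Algebra F' F := j.toAlgebra
    have h2 := Module.finrank_mul_finrank ℚ F' F
    have h3 : 0 < Module.finrank F' F := Module.finrank_pos
    calc Module.finrank ℚ F' = Module.finrank ℚ F' * 1 := (mul_one _).symm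
      _ ≤ Module.finrank ℚ F' * Module.finrank F' F := Nat.mul_le_mul_left _ h3
      _ = Module.finrank ℚ F := h2
  obtain ⟨e, he⟩ := Nat.exists_eq_add_of_le hle
  rw [he] at h1 ⊢
  rw [pow_add, mul_comm (r ^ _) (r ^ e), ← mul_assoc] at h1
  have h4 := Nat.le_of_mul_le_mul_right h1 (pow_pos hr0 _)
  rw [pow_add, mul_comm (k ^ _) (k ^ e), ← mul_assoc]
  refine Nat.mul_le_mul_right _ (h4.trans ?_)
  exact Nat.mul_le_mul_left _ (Nat.pow_le_pow_left hrk _)

theorem bounded_mono {p : ℤ × ℤ} {r k : ℕ} (hrk : r ≤ k) (h : Bounded p r) : Bounded p k :=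
  fun M _ _ hM d hd F _ _ i => bounds_mono hrk (h M hM d hd F i)

/-- The function. -/
noncomputable def rr (p : ℤ × ℤ) : ℕ := ncl p.1 p.2 + 1

theorem bounded_rr {N : ℕ} {p : ℤ × ℤ} (h : Nice N p) : Bounded p (rr p) := by
  intro M _ _ hM d hd F _ _ i
  haveI := hM.galois
  obtain ⟨n, hn⟩ := hM.degree
  have h1 := goodV (nice_iff.1 h) M hn (fun P hP hu => by
    obtain ⟨q, rfl, hq⟩ := hnat P hP
    exact hM.ramified q hq fun h => hu ((unr_iff hq.ne_zero).1 h)) hd.1 (fun P hP hPd => by
    obtain ⟨q, rfl, hq⟩ := hnat P hP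
    exact hd.2 q hq hPd) F i
  exact ⟨h1.sel, h1.fg, h1.le, fun F' _ _ j => h1.grow F' j⟩

theorem large {N : ℕ} {p : ℤ × ℤ} (h : Nice N p) : LargeClass N p := by
  refine ⟨fun M _ _ hg hd hu => ⟨hg, hd, fun q hq hr => ?_⟩, ?_⟩
  · apply h.noZero q hq
    by_contra hlt
    exact hr (hu q hq (by omega))
  · have h1 := nice_iff.1 h
    refine (inf_q (S := ∅) h.squarefree.ne_zero (no_rat h1)
      (fun Q hQ => absurd hQ (Finset.notMem_empty Q))).mono fun q hq => ⟨hq.1, ?_⟩
    rintro M _ _ h2 ⟨x, hx⟩
    have h3 : InCls 0 ∅ p.1 p.2 M :=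
      quad_cls hq (fun Q hQ => absurd hQ (Finset.notMem_empty Q)) M h2 hx
    refine ⟨h3.gal, h3.deg, fun q hq hr => ?_⟩
    rcases h3.ram (q : ℤ) (pr_nat hq) fun h => hr ((unr_iff hq.ne_zero).2 h) with h4 | h4
    · have := hq.pos
      exfalso
      have h5 : (q : ℤ) ≤ 0 := by exact_mod_cast h4
      omega
    · exact h4

/-- There is a function `r` on the curves such that for all `N` all curves `E` of the family satisfy
the bounds given by `r(E)` for all admissible twists over all subfields of ALL fields in the class of `E`; the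
family has positive density among all elliptic curves over `ℚ`, ordered by height; and the average of `r`
over the family is bounded. Therefore, up to a proportion of at most `ε` all curves of the family satisfy all the
bounds given by a fixed number `k`. -/
theorem result :
    (∀ X : ℕ, (Curves X).Finite) ∧
    ∃ r : ℤ × ℤ → ℕ, ∀ N : ℕ,
      (∀ p : ℤ × ℤ, Nice N p → Bounded p (r p) ∧ LargeClass N p) ∧
      (∃ (c : ℝ) (C : ℕ), 0 < c ∧ ∀ᶠ X : ℕ in atTop,
        0 < (Curves X).ncard ∧
        c * ((Curves X).ncard : ℝ) ≤ ((Family N X).ncard : ℝ) ∧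
        ∑ᶠ p ∈ Family N X, r p ≤ C * (Family N X).ncard) ∧
      ∀ ε : ℝ, 0 < ε → ∃ k : ℕ, ∀ᶠ X : ℕ in atTop,
        (({p ∈ Family N X | ¬ Bounded p k}).ncard : ℝ) ≤ ε * ((Family N X).ncard : ℝ) := by
  have hset : ∀ X : ℕ, Curves X = {p : ℤ × ℤ | Pool.Agent.N922.PQ.Crv X p.1 p.2} := by
    intro X
    ext p
    exact (crv_iff X p).symm
  have hfin : ∀ X : ℕ, (Curves X).Finite := fun X => by
    rw [hset]
    exact Pool.Agent.N922.PQ.crv_fin X
  refine ⟨hfin, rr, fun N => ?_⟩
  obtain ⟨C, c, X₀, hc, h⟩ := mainV N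
  refine ⟨fun p hp => ⟨bounded_rr hp, large hp⟩, ⟨c, C, hc, ?_⟩, fun ε hε => ?_⟩
  · filter_upwards [eventually_ge_atTop (max X₀ 27)] with X hX
    obtain ⟨-, h2, h3⟩ := h X ((le_max_left _ _).trans hX)
    rw [← hset, ← fam_eq] at h2
    rw [← fam_eq] at h3
    exact ⟨(Set.ncard_pos (hfin X)).2 ⟨_, nonempty ((le_max_right _ _).trans hX)⟩, h2, h3⟩
  · obtain ⟨k, hk⟩ := exists_nat_gt ((C : ℝ) / ε)
    have hk0 : (0 : ℝ) < k := lt_of_le_of_lt (by positivity) hk
    refine ⟨k, ?_⟩
    filter_upwards [eventually_ge_atTop X₀] with X hX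
    obtain ⟨-, -, h3⟩ := h X hX
    rw [← fam_eq] at h3
    have hFf : (Family N X).Finite := (hfin X).subset fun p hp => hp.1
    have hBf : ({p ∈ Family N X | ¬ Bounded p k}).Finite := hFf.subset fun p hp => hp.1
    rw [finsum_mem_eq_finite_toFinset_sum _ hFf] at h3
    have h4 : k * ({p ∈ Family N X | ¬ Bounded p k}).ncard ≤ ∑ p ∈ hFf.toFinset, (ncl p.1 p.2 + 1) := by
      rw [Set.ncard_eq_toFinset_card _ hBf, mul_comm, ← smul_eq_mul, ← Finset.sum_const]
      calc ∑ _p ∈ hBf.toFinset, k ≤ ∑ p ∈ hBf.toFinset, (ncl p.1 p.2 + 1) := by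
            refine Finset.sum_le_sum fun p hp => ?_
            have hp' := hBf.mem_toFinset.1 hp
            by_contra hlt
            exact hp'.2 (bounded_mono (by unfold rr; omega) (bounded_rr hp'.1.2))
        _ ≤ _ := by
            refine Finset.sum_le_sum_of_subset ?_
            intro p hp
            exact hFf.mem_toFinset.2 (hBf.mem_toFinset.1 hp).1
    have h5 : (k : ℝ) * (({p ∈ Family N X | ¬ Bounded p k}).ncard : ℝ) ≤
        C * ((Family N X).ncard : ℝ) := by exact_mod_cast h4.trans h3
    rw [div_lt_iff₀ hε] at hk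
    have h6 : (k : ℝ) * (({p ∈ Family N X | ¬ Bounded p k}).ncard : ℝ) ≤
        k * (ε * ((Family N X).ncard : ℝ)) := by
      calc _ ≤ C * ((Family N X).ncard : ℝ) := h5
        _ ≤ (k * ε) * ((Family N X).ncard : ℝ) := by gcongr
        _ = _ := by ring
    exact le_of_mul_le_mul_left h6 hk0

end Pool.Agent.Results.MP_788af2_nt.AverageOverTwoExtensions
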