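import Pool.Agent.K6.H88.TC.FinB
import Pool.Agent.K6.H88.TC.Cls

/-!
# Bounds for the 2-Selmer groups and ranks of a positive proportion of all elliptic curves over `ℚ`
# over all subfields of infinitely many Galois extensions of 2-power degree, ramified at 2 or not

Let `K / ℚ` be any finite Galois extension of 2-power degree, and `N` a number.

For a finite set `S` of primes and an elliptic curve `E : y ^ 2 = x ^ 3 + A x + B` over `ℚ` let `C(E)` be the
class of all finite Galois extensions `M / ℚ` of 2-power degree in which all `q ∈ S` split completely and in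
which a prime `q` is ramified only if `q = 2` or `q ≤ N` or `x ^ 3 + A x + B` has no zero modulo `q`. The
ramification at `2` is arbitrary.

Theorem. There are `S` and `c > 0` such that for all large `X` at least `c` times the number of
all elliptic curves `E / ℚ` of height at most `X` have the following properties. The field `K` is in the
class `C(E)`. Let `M` be ANY field in the class `C(E)`, `F` ANY subfield of `M` and `d` an integer all prime
factors `q` of which are at most `N` or such that `x ^ 3 + A x + B` has no zero modulo `q`. Then for the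
quadratic twist `E ^ d`

* the 2-Selmer group of `E ^ d` over `F` has at most `2 ^ [F : ℚ]` elements, `rank E ^ d (F) ≤ [F : ℚ]`;
* `rank E ^ d (F) - rank E ^ d (F') ≤ [F : ℚ] - [F' : ℚ]` for all subfields `F'` of `F`;
* `rank E ^ d (F) ≤ [F : ℚ] - [F' : ℚ]` if `d = 1` or `d = 2` modulo `4` and `F'` is a subfield of `F` which
  is Galois over `ℚ` and in which `2` is unramified; in particular `rank E ^ d (F) ≤ [F : ℚ] - 1`.

So the set of curves does not depend on `M`, `F` and `d`, and the bounds do not depend on the number of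
ramified primes. The class `C(E)` contains `ℚ(√q)` for infinitely many primes `q`.

The proof. The curves are those of `MP_788af2_nt.AllTwoExtensions` and `AllSmallTwists`:
`y ^ 2 = x ^ 3 + a D ^ 2 x + b D ^ 3` with `a = b = 3` modulo `4`, squarefree `4 a ^ 3 + 27 b ^ 2`, no zero of
`f = x ^ 3 + a x + b` modulo the primes in a finite set `T`, and `D` a product of primes in `S`; by the
projects PQ and PV (helper922, in the starting files) for a positive proportion of these `(a, b)` there
is a `D` such that every element of `L = ℚ(θ)`, `f(θ) = 0`, of square norm, with even valuations outside of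
`D`, the ramified condition at the primes dividing `D` and a good class modulo `4` at the prime `2`, is a
square. The class modulo `4` is `1 + 2 (g θ + h θ ^ 2)`, and it is good if `h` is even. So without the
condition at `2` there are at most two classes of such elements modulo squares.

Let `M` be in the class, `G = Gal(M / ℚ)`, `Ω = M(θ)`, and let `V` be the group of the elements of `Ω` modulo
squares which satisfy the conditions of square norm and at the odd primes; it does not depend on `d`. The
descent of `AllTwoExtensions` shows: if a subgroup `V'` of `V`, stable under `G = Gal(Ω / L)`, contains no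
class of a nonsquare of `L`, then `V' = 0`. Now a homomorphism `χ` of `Ω ^ *` to `𝔽_2` which is not trivial on
the one possible nontrivial class of `L` (it exists because this class remains nontrivial in `Ω`) is
taken; the classes `x ∈ V` with `χ(σ x) = 0` for all `σ` form such a group `V'`. So `x ↦ (χ(σ x))` is an embedding
of `V` in the free module `𝔽_2[G]` of rank one. For a subfield `F` of `M` the Selmer group of `E ^ d` over `F` is
a subgroup of the part of `V` which is fixed by `Gal(M / F)`, and this part is mapped to functions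
on `G / Gal(M / F)`, the set of embeddings of `F` in `M`; the map from the group of points to `V` is the
explicit 2-descent `P ↦ x(P) - θ`, its kernel is `2 E ^ d (F)` and it is compatible with the action of `G` on
the points. For a subfield `F'` of `F` the trace of a point of `E ^ d (F)` is in `E ^ d (F')`, and the function
of a point with trace in `2 E ^ d (F')` has sum zero over the embeddings with the same restriction to `F'`. This
gives the bound for the growth of the rank. If `2` is unramified in the Galois extension `F' / ℚ` and `d` is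
`1` or `2` modulo `4`, then `E ^ d (F')` is finite by `AllTwoExtensions`.
-/

set_option autoImplicit false
set_option linter.all false

namespace Pool.Agent.Results.MP_788af2_nt.SelmerAndRankBounds

open Filter NumberField IsDedekindDomain Pool.Agent.TH115.GD
open scoped Classical

/-- The equation `y ^ 2 = x ^ 3 + A x + B` with integers `A`, `B` defines an elliptic curve, and
there is no prime `p` with `p ^ 4 ∣ A` and `p ^ 6 ∣ B`. -/
structure IsMinimal (A B : ℤ) : Prop where
  elliptic : 4 * A ^ 3 + 27 * B ^ 2 ≠ 0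
  minimal : ∀ p : ℕ, p.Prime → ¬ ((p : ℤ) ^ 4 ∣ A ∧ (p : ℤ) ^ 6 ∣ B)

/-- The height. -/
def height (p : ℤ × ℤ) : ℤ := max (4 * |p.1| ^ 3) (27 * p.2 ^ 2)

/-- The set of all elliptic curves over `ℚ` of height at most `X`. -/
def Curves (X : ℕ) : Set (ℤ × ℤ) := {p | IsMinimal p.1 p.2 ∧ height p ≤ X}

/-- The quadratic twist by `d` of the curve `y ^ 2 = x ^ 3 + A x + B`, `p = (A, B)`, over `M`: the curve
`y ^ 2 = x ^ 3 + A d ^ 2 x + B d ^ 3`. -/
def twist (M : Type) [Field M] (p : ℤ × ℤ) (d : ℤ) : WeierstrassCurve M :=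
  ⟨0, 0, 0, ((p.1 * d ^ 2 : ℤ) : M), ((p.2 * d ^ 3 : ℤ) : M)⟩

section selmer

variable (M : Type) [Field M] [NumberField M] (W : WeierstrassCurve M)

/-- The cocycle `f` of `Gal(Sep M / M)` is a coboundary over the completion of `M` at every maximal
ideal of the ring of integers. -/
def Locally (f : (Sep M ≃ₐ[M] Sep M) → Pt W (Sep M)) : Prop :=
  ∀ v : HeightOneSpectrum (𝓞 M), LocTriv W (Comp (𝓞 M) M v) (Sep (Comp (𝓞 M) M v)) f

/-- The 2-Selmer group has at most `k` elements: if `f 0, ..., f k` are continuous cocycles with values in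
the points of order two which are coboundaries over all completions (at the finite places), with
values in all points, then two of them differ by the coboundary of a point of order two. -/
def SelmerAtMost (k : ℕ) : Prop :=
  ∀ f : Fin (k + 1) → (Sep M ≃ₐ[M] Sep M) → Pt W (Sep M), (∀ i, IsCoc W (f i)) →
    (∀ i σ, (2 : ℕ) • f i σ = 0) → (∀ i, Locally M W (f i)) →
    ∃ i j, i ≠ j ∧ ∃ T : Pt W (Sep M), (2 : ℕ) • T = 0 ∧
      ∀ σ, f i σ - f j σ = act W (rs M σ) T - T

end selmer

/-- The polynomial `X ^ 3 + A X + B`, `p = (A, B)`, has no zero modulo `q`. -/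
def NoZero (p : ℤ × ℤ) (q : ℕ) : Prop := ∀ z : ℤ, ¬ (q : ℤ) ∣ z ^ 3 + p.1 * z + p.2

/-- The number `d` is not zero and all its prime factors `q` are at most `N` or `X ^ 3 + A X + B` has no
zero modulo `q`. -/
def Admissible (N : ℕ) (p : ℤ × ℤ) (d : ℤ) : Prop :=
  d ≠ 0 ∧ ∀ q : ℕ, q.Prime → (q : ℤ) ∣ d → q ≤ N ∨ NoZero p q

/-- The prime `q` is unramified in `M`. -/
def Unramified (M : Type) [Field M] [NumberField M] (q : ℕ) : Prop :=
  ∀ 𝔭 : Ideal (𝓞 M), 𝔭.IsPrime → (q : 𝓞 M) ∉ 𝔭 ^ 2

/-- The prime `q` splits completely in `M`: it is unramified, and every integer of `M` is congruent to an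
element of `ℤ` modulo every prime over `q`. -/
def SplitsCompletely (M : Type) [Field M] [NumberField M] (q : ℕ) : Prop :=
  Unramified M q ∧ ∀ 𝔭 : Ideal (𝓞 M), 𝔭.IsPrime → (q : 𝓞 M) ∈ 𝔭 → ∀ x : 𝓞 M, ∃ n : ℤ, x - n ∈ 𝔭

/-- The class of the Galois extensions `M / ℚ` of 2-power degree in which the primes in `S` split
completely and in which a prime `q` is ramified only if `q = 2` or `q ≤ N` or `X ^ 3 + A X + B` has no
zero modulo `q`. -/
structure InClass (N : ℕ) (S : Finset ℕ) (p : ℤ × ℤ) (M : Type) [Field M] [NumberField M] :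
    Prop where
  galois : IsGalois ℚ M
  degree : ∃ n : ℕ, Module.finrank ℚ M = 2 ^ n
  split : ∀ q ∈ S, SplitsCompletely M q
  ramified : ∀ q : ℕ, q.Prime → ¬ Unramified M q → q = 2 ∨ q ≤ N ∨ NoZero p q

/-- The rank over `F` of the twist by `d`. -/
noncomputable def rank (F : Type) [Field F] (p : ℤ × ℤ) (d : ℤ) : ℕ :=
  Module.finrank ℤ (Pt (twist F p d) F)

/-- The bounds for the twist by `d` over `F`: for the 2-Selmer group, for the rank, for the growth of the rank
from a subfield, and for the rank if `d` is `1` or `2` modulo `4` and `F` has a subfield which is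
Galois over `ℚ` and unramified at `2`. -/
structure Bounds (F : Type) [Field F] [NumberField F] (p : ℤ × ℤ) (d : ℤ) : Prop where
  selmer : SelmerAtMost F (twist F p d) (2 ^ Module.finrank ℚ F)
  fg : AddGroup.FG (Pt (twist F p d) F)
  rank_le : rank F p d ≤ Module.finrank ℚ F
  growth : ∀ (F' : Type) [Field F'] [NumberField F'] (_ : F' →+* F),
    rank F p d + Module.finrank ℚ F' ≤ rank F' p d + Module.finrank ℚ F
  small : (d % 4 = 1 ∨ d % 4 = 2) → ∀ (F' : Type) [Field F'] [NumberField F'] (_ : F' →+* F),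
    IsGalois ℚ F' → Unramified F' 2 → rank F p d + Module.finrank ℚ F' ≤ Module.finrank ℚ F

/-- The field `K` is in the class of the curve `p = (A, B)`. The bounds hold for all twists of the curve by
admissible `d` over all subfields `F` of all fields `M` in the class. The class contains
the quadratic fields given by the square roots of infinitely many primes. -/
structure Bounded (N : ℕ) (S : Finset ℕ) (K : Type) [Field K] [NumberField K] (p : ℤ × ℤ) :
    Prop where
  given : InClass N S p K
  bounds : ∀ (M : Type) [Field M] [NumberField M], InClass N S p M → ∀ d : ℤ, Admissible N p d →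
    ∀ (F : Type) [Field F] [NumberField F] (_ : F →+* M), Bounds F p d
  infinite : {q : ℕ | q.Prime ∧ ∀ (M : Type) [Field M] [NumberField M], Module.finrank ℚ M = 2 →
    (∃ x : M, x ^ 2 = (q : M)) → InClass N S p M}.Infinite

theorem crv_iff (X : ℕ) (p : ℤ × ℤ) : Pool.Agent.N922.PQ.Crv X p.1 p.2 ↔ p ∈ Curves X := by
  constructor
  · rintro ⟨h1, h2, h3, h4⟩
    exact ⟨⟨h1, h2⟩, max_le h3 h4⟩
  · rintro ⟨⟨h1, h2⟩, h3⟩
    exact ⟨h1, h2, (le_max_left _ _).trans h3, (le_max_right _ _).trans h3⟩

theorem nonempty {X : ℕ} (hX : 27 ≤ X) : ((1, 1) : ℤ × ℤ) ∈ Curves X := by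
  refine ⟨⟨by norm_num, ?_⟩, ?_⟩
  · rintro p hp ⟨h, -⟩
    have h1 : ((p : ℤ)) ∣ 1 := (dvd_pow_self (p : ℤ) (by norm_num)).trans h
    have h2 : p ∣ 1 := by exact_mod_cast h1
    exact hp.one_lt.ne' (Nat.dvd_one.1 h2)
  · have : height ((1, 1) : ℤ × ℤ) = 27 := by
      simp [height]
    rw [this]
    exact_mod_cast hX

open Pool.Agent.N922.PQ (Ov IsPr)
open Pool.Agent.K6.H88.TC

theorem unr_iff {M : Type} [Field M] [NumberField M] {q : ℕ} (hq : q ≠ 0) :
    Unramified M q ↔ Unr M (q : ℤ) := by
  have e : ∀ w : HeightOneSpectrum (𝓞 M), w.valuation M ((q : ℤ) : M) = w.intValuation (q : 𝓞 M) := by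
    intro w
    rw [← HeightOneSpectrum.valuation_of_algebraMap (K := M)]
    congr 1
    push_cast
    rfl
  constructor
  · intro h w hw
    rw [e]
    have h2 : (q : 𝓞 M) ∈ w.asIdeal := by
      have := hw
      unfold Ov at this
      simpa using this
    have h3 := h w.asIdeal w.isPrime
    have a1 : w.intValuation (q : 𝓞 M) ≤ WithZero.exp (-((1 : ℕ) : ℤ)) := by
      rw [HeightOneSpectrum.intValuation_le_pow_iff_mem, pow_one]
      exact h2
    have a2 : ¬ w.intValuation (q : 𝓞 M) ≤ WithZero.exp (-((2 : ℕ) : ℤ)) := by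
      rw [HeightOneSpectrum.intValuation_le_pow_iff_mem]
      exact h3
    have h0 : w.intValuation (q : 𝓞 M) ≠ 0 := by
      intro h0
      apply a2
      rw [h0]
      exact zero_le'
    rw [← WithZero.exp_log h0] at a1 a2 ⊢
    rw [WithZero.exp_le_exp] at a1 a2
    congr 1
    push_cast at a1 a2
    omega
  · intro h 𝔭 h𝔭 hq2
    have hne : 𝔭 ≠ ⊥ := by
      rintro rfl
      rw [Ideal.bot_pow (by norm_num), Ideal.mem_bot] at hq2
      exact hq (by exact_mod_cast hq2)
    let w : HeightOneSpectrum (𝓞 M) := ⟨𝔭, h𝔭, hne⟩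
    have hw : Ov (q : ℤ) w := by
      change ((q : ℤ) : 𝓞 M) ∈ 𝔭
      have := Ideal.pow_le_self (by norm_num : 2 ≠ 0) hq2
      simpa using this
    have h1 := h w hw
    rw [e] at h1
    have h2 : w.intValuation (q : 𝓞 M) ≤ WithZero.exp (-((2 : ℕ) : ℤ)) := by
      rw [HeightOneSpectrum.intValuation_le_pow_iff_mem]
      exact hq2
    rw [h1, WithZero.exp_le_exp] at h2
    norm_num at h2

theorem spl_iff {M : Type} [Field M] [NumberField M] {q : ℕ} (hq : q ≠ 0) :
    SplitsCompletely M q ↔ Spl M (q : ℤ) := by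
  constructor
  · rintro ⟨h1, h2⟩ w hw
    refine ⟨(unr_iff hq).1 h1 w hw, h2 w.asIdeal w.isPrime ?_⟩
    have := hw
    unfold Ov at this
    simpa using this
  · intro h
    refine ⟨(unr_iff hq).2 fun w hw => (h w hw).1, fun 𝔭 h𝔭 hq𝔭 => ?_⟩
    have hne : 𝔭 ≠ ⊥ := by
      rintro rfl
      rw [Ideal.mem_bot] at hq𝔭
      exact hq (by exact_mod_cast hq𝔭)
    refine (h ⟨𝔭, h𝔭, hne⟩ ?_).2
    change ((q : ℤ) : 𝓞 M) ∈ 𝔭
    simpa using hq𝔭

theorem adm_of {N : ℕ} {p : ℤ × ℤ} {d : ℤ} (h : Admissible N p d) :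
    Pool.Agent.K6.H88.TW.Adm N p.1 p.2 d := by
  refine ⟨h.1, fun P hP hPd => ?_⟩
  obtain ⟨q, rfl⟩ : ∃ q : ℕ, P = q := ⟨P.toNat, by have := hP.1; omega⟩
  have hq : q.Prime := Nat.prime_iff_prime_int.2 hP.2
  rcases h.2 q hq hPd with h1 | h1
  · left
    exact_mod_cast h1
  · exact Or.inr h1

theorem hnat (P : ℤ) (hP : IsPr P) : ∃ q : ℕ, P = q ∧ q.Prime := by
  obtain ⟨q, rfl⟩ : ∃ q : ℕ, P = q := ⟨P.toNat, by have := hP.1; omega⟩
  exact ⟨q, rfl, Nat.prime_iff_prime_int.2 hP.2⟩

theorem cls_iff {N : ℕ} {S : Finset ℤ} (hS : ∀ Q ∈ S, IsPr Q) {p : ℤ × ℤ} {M : Type} [Field M]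
    [NumberField M] : InClass N (S.image Int.toNat) p M ↔ InClsB N S p.1 p.2 M := by
  constructor
  · rintro ⟨h1, h2, h4, h5⟩
    refine ⟨h1, h2, fun Q hQ => ?_, fun P hP hu => ?_⟩
    · obtain ⟨q, rfl, hq⟩ := hnat Q (hS Q hQ)
      exact (spl_iff hq.ne_zero).1 (h4 q (Finset.mem_image.2 ⟨q, hQ, by simp⟩))
    · obtain ⟨q, rfl, hq⟩ := hnat P hP
      rcases h5 q hq fun h => hu ((unr_iff hq.ne_zero).1 h) with h | h | h
      · right
        left
        exact_mod_cast h
      · left
        exact_mod_cast h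
      · exact Or.inr (Or.inr h)
  · rintro ⟨h1, h2, h4, h5⟩
    refine ⟨h1, h2, fun q hq => ?_, fun q hq hu => ?_⟩
    · obtain ⟨Q, hQ, rfl⟩ := Finset.mem_image.1 hq
      obtain ⟨r, rfl, hr⟩ := hnat Q (hS Q hQ)
      rw [Int.toNat_natCast]
      exact (spl_iff hr.ne_zero).2 (h4 _ hQ)
    · rcases h5 q ⟨by exact_mod_cast hq.pos, Nat.prime_iff_prime_int.1 hq⟩
        fun h => hu ((unr_iff hq.ne_zero).2 h) with h | h | h
      · right
        left
        exact_mod_cast h
      · left
        exact_mod_cast h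
      · exact Or.inr (Or.inr h)

theorem bounds_of {F : Type} [Field F] [NumberField F] {p : ℤ × ℤ} {d : ℤ}
    (h : GoodF F p.1 p.2 d) : Bounds F p d :=
  ⟨h.sel, h.fg, h.le, fun F' _ _ j => h.grow F' j, fun hd F' _ _ j hg hu =>
    h.zero hd F' j hg (by exact_mod_cast (unr_iff two_ne_zero).1 hu)⟩

/-- For every Galois extension `K / ℚ` of 2-power degree and every `N` there
are a finite set `S` of primes and `c > 0` such that for all large `X` at least `c` times
the number of all elliptic curves `E` over `ℚ` of height at most `X` satisfy `Bounded`: the bounds for the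
2-Selmer groups and the ranks hold for all admissible twists of `E` over all subfields of ALL fields in
the class given by `E` and `S`, and `K` is in this class. -/
theorem result (N : ℕ) (K : Type) [Field K] [NumberField K] [IsGalois ℚ K] (n : ℕ)
    (hn : Module.finrank ℚ K = 2 ^ n) :
    (∀ X : ℕ, (Curves X).Finite) ∧
    ∃ S : Finset ℕ, (∀ q ∈ S, q.Prime ∧ SplitsCompletely K q) ∧
      ∃ c : ℝ, 0 < c ∧ ∀ᶠ X : ℕ in atTop,
        0 < (Curves X).ncard ∧
        c * ((Curves X).ncard : ℝ) ≤ (({p ∈ Curves X | Bounded N S K p}).ncard : ℝ) := by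
  have hset : ∀ X : ℕ, Curves X = {p : ℤ × ℤ | Pool.Agent.N922.PQ.Crv X p.1 p.2} := by
    intro X
    ext p
    exact (crv_iff X p).symm
  have hfin : ∀ X : ℕ, (Curves X).Finite := fun X => by
    rw [hset]
    exact Pool.Agent.N922.PQ.crv_fin X
  refine ⟨hfin, ?_⟩
  obtain ⟨S, hS, hKS, c, hc, X₀, h⟩ := mainB N K
  have hS' : ∀ Q ∈ S, IsPr Q := fun Q hQ => (hS Q hQ).1
  refine ⟨S.image Int.toNat, fun q hq => ?_, c, hc, ?_⟩
  · obtain ⟨Q, hQ, rfl⟩ := Finset.mem_image.1 hq
    obtain ⟨q, rfl, hqp⟩ := hnat Q (hS' Q hQ)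
    rw [Int.toNat_natCast]
    exact ⟨hqp, (spl_iff hqp.ne_zero).2 (hKS _ hQ)⟩
  filter_upwards [eventually_ge_atTop (max X₀ 27)] with X hX
  refine ⟨(Set.ncard_pos (hfin X)).2 ⟨_, nonempty ((le_max_right _ _).trans hX)⟩, ?_⟩
  have h1 := (h X ((le_max_left _ _).trans hX)).2
  rw [← hset] at h1
  refine h1.trans ?_
  have h3 : {p : ℤ × ℤ | Pool.Agent.N922.PQ.Crv X p.1 p.2 ∧
      ((∀ P : ℤ, IsPr P → ¬ Unr K P → NZ p.1 p.2 P) ∧
        (∀ P : ℤ, IsPr P → P ≤ N → NZ p.1 p.2 P) ∧
        (∀ t : ℚ, t ^ 3 + (p.1 : ℚ) * t + (p.2 : ℚ) ≠ 0) ∧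
        ∀ (M : Type) [Field M] [NumberField M], InClsB N S p.1 p.2 M →
          ∀ d : ℤ, Pool.Agent.K6.H88.TW.Adm N p.1 p.2 d →
            ∀ (F : Type) [Field F] [NumberField F], (F →+* M) → GoodF F p.1 p.2 d)} ⊆
      {p ∈ Curves X | Bounded N (S.image Int.toNat) K p} := by
    rintro p ⟨hp, hK, -, hirr, hall⟩
    have hKc : InClsB N S p.1 p.2 K :=
      ⟨inferInstance, ⟨n, hn⟩, hKS, fun P hP hu => Or.inr (Or.inr (hK P hP hu))⟩
    refine ⟨(crv_iff X p).1 hp, (cls_iff hS').2 hKc, ?_, ?_⟩
    · intro M _ _ hM d hd F _ _ i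
      exact bounds_of (hall M ((cls_iff hS').1 hM) d (adm_of hd) F i)
    · refine (inf_q hp.disc hirr hS).mono fun q hq => ⟨hq.1, ?_⟩
      rintro M _ _ h2 ⟨x, hx⟩
      have h3 : InCls N S p.1 p.2 M := quad_cls hq hS M h2 hx
      refine (cls_iff hS').2 ⟨h3.gal, h3.deg, h3.spl, fun P hP hu => ?_⟩
      rcases h3.ram P hP hu with h4 | h4
      · exact Or.inl h4
      · exact Or.inr (Or.inr h4)
  have h4 := Set.ncard_le_ncard h3 ((hfin X).subset fun p hp => hp.1)
  exact_mod_cast h4

end Pool.Agent.Results.MP_788af2_nt.SelmerAndRankBounds
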